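import Pool.Agent.H71.PX.Targets

/-!
# MP_64fb07_lc, board pfc_modules, row IS: the step of the induction
-/

set_option autoImplicit false

open Pool.Agent.H71.PX

namespace Pool.Agent.H35.PX.IS

theorem pf_IS (rc : T_RC) (sl : T_SL) (uq : T_UQ) (sa : T_SA) (se : T_SE) (nw : T_NW) : T_IS := by
  intro α Q m U Hh Vv n v h I ht
  have hN := I.num v le_rfl
  obtain ⟨w, hw, hS⟩ := h.succ hN ht
  obtain ⟨hne, hR⟩ := nw α Q m U Hh Vv n v h I w hw hS
  refine ⟨w, ?_⟩
  have e1 : Function.update n (v + 1) w (v + 1) = w := Function.update_self _ _ _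
  have e2 : ∀ k ≤ v, Function.update n (v + 1) w k = n k := fun k hk =>
    Function.update_of_ne (by omega) _ _
  have hk2 : ∀ k, k ≤ v + 1 → k ≤ v ∨ k = v + 1 := fun k hk => by omega
  refine
    { num := ?_
      zr := ?_
      ord := ?_
      top := ?_
      suc := ?_
      usuc := ?_
      lt := ?_
      s := ?_
      sA := ?_
      sE := ?_ }
  · intro k hk
    rcases hk2 k hk with h1 | rfl
    · rw [e2 k h1]
      exact I.num k h1
    · rw [e1]
      exact hw
  · rw [e2 0 (Nat.zero_le _)]
    exact I.zr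
  · intro i j hij hj
    rcases hk2 j hj with h1 | rfl
    · rw [e2 i (by omega), e2 j h1]
      exact I.ord i j hij h1
    · rw [e1, e2 i (by omega)]
      exact I.lt i (by omega) w hw fun j hj => hne j (by omega)
  · intro k hk
    rw [e2 k (by omega)]
    rcases Nat.lt_or_ge k v with h1 | h1
    · exact I.top k h1
    · obtain rfl : k = v := by omega
      exact ht
  · intro k hk
    rw [e2 k (by omega)]
    rcases Nat.lt_or_ge k v with h1 | h1
    · rw [e2 (k + 1) h1]
      exact I.suc k h1
    · obtain rfl : k = v := by omega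
      rw [e1]
      exact hS
  · intro k hk w' hw' hs
    rw [e2 k (by omega)] at hs
    rcases Nat.lt_or_ge k v with h1 | h1
    · rw [e2 (k + 1) h1]
      exact I.usuc k h1 w' hw' hs
    · obtain rfl : k = v := by omega
      rw [e1]
      exact uq α Q m U Hh Vv n k h I w' w hw' hw hs hS
  · intro k hk w' hw' hn
    rcases hk2 k hk with h1 | rfl
    · rw [e2 k h1]
      refine I.lt k h1 w' hw' fun j hj => ?_
      have h2 := hn j hj
      rwa [e2 j (by omega)] at h2
    · rw [e1]
      have h1 : m.Lt (n v) w' := I.lt v le_rfl w' hw' fun j hj => by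
        have h2 := hn j (by omega)
        rwa [e2 j hj] at h2
      have h2 : w' ≠ w := by
        have h3 := hn (v + 1) le_rfl
        rwa [e1] at h3
      obtain ⟨y, hy, hSy, hyw, -⟩ := h.nn hN hw' h1
      have h3 : y = w := uq α Q m U Hh Vv n v h I y w hy hw hSy hS
      rw [h3] at hyw
      exact hyw.resolve_left fun h4 => h2 h4.symm
  · intro k hk a z w' hz hw' hp hp'
    rcases hk2 k hk with h1 | rfl
    · rw [e2 k h1] at hp ⊢
      exact I.s k h1 a z w' hz hw' hp hp'
    · rw [e1] at hp ⊢
      have hr := (hR z hz a).1 hp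
      have hnc := (rc α Q m U Hh Vv n v h I z hz).1 a hr
      have hne' : ∀ k ≤ v, w' ≠ n k := by
        rintro k hk rfl
        exact hnc k hk hp'
      obtain ⟨s1, s2, s3⟩ := sl α Q m U Hh Vv n v h I w' z hw' hne' hz
      refine uq α Q m U Hh Vv n v h I w' w hw' hw ?_ hS
      cases a
      · by_cases hC : m.C z
        · exact s3 ⟨hz, hC⟩ hp' hr
        · exact (s2 ⟨hz, hC⟩ hp').2 hr
      · exact (s1 hp').2 hr
  · intro k hk j hj z u hz hu ha hp hp'
    rcases hk2 k hk with h1 | rfl
    · rw [e2 k h1] at hp ⊢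
      rw [e2 j (by omega)] at hp'
      exact I.sA k h1 j hj z u hz hu ha hp hp'
    · rw [e1] at hp ⊢
      rw [e2 j (by omega)] at hp'
      exact (hR u hu.1 false).2 (sa α Q m U Hh Vv n v h I z u j hz hu ha
        ((hR z hz.1 false).1 hp) (by omega) hp')
  · intro k hk z u hz hu he hp
    rcases hk2 k hk with h1 | rfl
    · rw [e2 k h1] at hp ⊢
      exact I.sE k h1 z u hz hu he hp
    · rw [e1] at hp ⊢
      exact (hR u hu.1 true).2 (se α Q m U Hh Vv n v h I z u hz hu he ((hR z hz.1 false).1 hp))

end Pool.Agent.H35.PX.IS
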